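import Pool.Agent.H596R2.D3R.Expect

/-!
Hard instances of triangle detection in edge lists.
-/

namespace Pool.Agent.K7.H45.TD3

open Finset Classical Pool.Agent.H596R2.D3 Pool.Agent.H596R2.D3R

/-- The length of the names of the vertices of graphs with `n` edges. -/
def wlen (n : ℕ) : ℕ := Nat.size n + 6

/-- The input bits: place in the list, end of the edge, position in the name. -/
abbrev EBit (n : ℕ) : Type := Fin n × Bool × Fin (wlen n)

/-- The vertices: words of `wlen n` bits. -/
abbrev Vtx (n : ℕ) : Type := Fin (wlen n) → Bool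

/-- One end of the edge at the place `j` of the list. -/
def vtx {n : ℕ} (z : EBit n → Bool) (j : Fin n) (s : Bool) : Vtx n := fun d => z (j, s, d)

/-- The edge at the place `j` of the list. -/
def edge {n : ℕ} (z : EBit n → Bool) (j : Fin n) : Sym2 (Vtx n) := s(vtx z j false, vtx z j true)

/-- The graph. -/
def graph {n : ℕ} (z : EBit n → Bool) : SimpleGraph (Vtx n) :=
  SimpleGraph.fromEdgeSet (Set.range (edge z))

/-- The input is a list of the `n` different edges of a simple graph. -/
def ValidList {n : ℕ} (z : EBit n → Bool) : Prop :=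
  Function.Injective (edge z) ∧ ∀ j, vtx z j false ≠ vtx z j true

/-- The graph has a triangle. -/
def HasTriangle {n : ℕ} (z : EBit n → Bool) : Prop := ¬ (graph z).CliqueFree 3

theorem card_vtx (n : ℕ) (hn : 1 ≤ n) : Fintype.card (Vtx n) ≤ 128 * n := by
  have h : Fintype.card (Vtx n) = 2 ^ (Nat.size n + 6) := by
    simp only [Fintype.card_pi, Fintype.card_bool, prod_const, card_univ, wlen]
    congr 1
    exact Fintype.card_fin _
  rw [h, pow_add]
  obtain ⟨s, hs⟩ : ∃ s, Nat.size n = s + 1 := ⟨Nat.size n - 1, by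
    have := Nat.size_pos.mpr hn
    omega⟩
  have h1 : s < Nat.size n := by omega
  rw [Nat.lt_size] at h1
  rw [hs, pow_succ]
  omega

theorem adj_iff {n : ℕ} (z : EBit n → Bool) (a b : Vtx n) :
    (graph z).Adj a b ↔ a ≠ b ∧ ∃ j s, vtx z j s = a ∧ vtx z j (!s) = b := by
  unfold graph
  rw [SimpleGraph.fromEdgeSet_adj]
  constructor
  · rintro ⟨⟨j, hj⟩, hne⟩
    refine ⟨hne, j, ?_⟩
    unfold edge at hj
    rw [Sym2.eq_iff] at hj
    rcases hj with ⟨h1, h2⟩ | ⟨h1, h2⟩
    · exact ⟨false, h1, h2⟩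
    · exact ⟨true, h2, h1⟩
  · rintro ⟨hne, j, s, h1, h2⟩
    refine ⟨⟨j, ?_⟩, hne⟩
    unfold edge
    rw [Sym2.eq_iff]
    cases s
    · exact Or.inl ⟨h1, h2⟩
    · exact Or.inr ⟨h2, h1⟩

theorem tri_iff {n : ℕ} (z : EBit n → Bool) :
    HasTriangle z ↔ ∃ a b c : Vtx n, (graph z).Adj a b ∧ (graph z).Adj a c ∧ (graph z).Adj b c := by
  unfold HasTriangle SimpleGraph.CliqueFree
  push Not
  constructor
  · rintro ⟨t, ht⟩
    rw [SimpleGraph.is3Clique_iff] at ht
    obtain ⟨a, b, c, h1, h2, h3, -⟩ := ht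
    exact ⟨a, b, c, h1, h2, h3⟩
  · rintro ⟨a, b, c, h1, h2, h3⟩
    exact ⟨{a, b, c}, SimpleGraph.is3Clique_triple_iff.mpr ⟨h1, h2, h3⟩⟩

variable {m r b κ : ℕ}

/-- Symbolic bits. -/
abbrev SB (m r b κ : ℕ) : Type :=
  Sy (((Fin m × Fin 2) × Fin b) × Bool) (((Fin m × Fin r) × Fin κ) × Bool)

/-- The names of the vertices: kind, tag and code. -/
def vS (τ : ℕ) (k0 k1 : Bool) (T : ℕ) (c : ℕ → SB m r b κ) : ℕ → SB m r b κ := fun d =>
  if d = 0 then Sy.cst k0 else if d = 1 then Sy.cst k1
  else if d < 2 + τ then Sy.cst (T.testBit (d - 2)) else c (d - (2 + τ))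

/-- The code of a column. -/
def colS (D : ℕ) (g : ℕ → Bool) (q : (Fin m × Fin 2) × Fin b) : ℕ → SB m r b κ := fun t =>
  if t < D + 2 then (if g t then Sy.fst (q, false) true else Sy.fst (q, true) true) else Sy.cst false

/-- The code of a part of an AND-row. -/
def andS (e : Fin m) (ρ : Fin r) (off len : ℕ) (s neg : Bool) : ℕ → SB m r b κ := fun t =>
  if h : t < len ∧ off + t < κ then Sy.snd (((e, ρ), ⟨off + t, h.2⟩), s) neg else Sy.cst false

/-- The items of the list. -/
inductive Itm (m r b : ℕ) : Type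
  | X (e : Fin m) (i : Fin b) (ρ : Fin r)
  | Y (e : Fin m) (ρ : Fin r)
  | Z (e : Fin m) (i : Fin b) (ρ : Fin r)
  | P (j : ℕ)

def tag (e : Fin m) (ρ : Fin r) : ℕ := e.val * r + ρ.val

theorem tag_lt (e : Fin m) (ρ : Fin r) : tag e ρ < m * r := by
  unfold tag
  have h1 : (e.val + 1) * r ≤ m * r := Nat.mul_le_mul_right r e.isLt
  have h2 : (e.val + 1) * r = e.val * r + r := by ring
  have := ρ.isLt
  omega

theorem tag_inj {e e' : Fin m} {ρ ρ' : Fin r} (h : tag e ρ = tag e' ρ') : e = e' ∧ ρ = ρ' := by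
  unfold tag at h
  have hr : 0 < r := lt_of_le_of_lt (Nat.zero_le _) ρ.isLt
  have h1 : (e.val * r + ρ.val) / r = e.val := by
    rw [mul_comm, Nat.mul_add_div hr, Nat.div_eq_of_lt ρ.isLt, add_zero]
  have h2 : (e'.val * r + ρ'.val) / r = e'.val := by
    rw [mul_comm, Nat.mul_add_div hr, Nat.div_eq_of_lt ρ'.isLt, add_zero]
  have h3 : e.val = e'.val := by rw [← h1, ← h2, h]
  have h4 : e = e' := Fin.ext h3
  subst h4
  exact ⟨rfl, Fin.ext (by omega)⟩

def bX (D i : ℕ) (t : ℕ) : Bool := if t < D then i.testBit t else decide (t = D)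

def bZ (D i : ℕ) (t : ℕ) : Bool := if t < D then i.testBit t else true

/-- The symbolic name of one end of an item. -/
def endS (D κv τ : ℕ) : Itm m r b → Bool → ℕ → SB m r b κ
  | Itm.X e i ρ, false => vS τ false false (tag e ρ) (colS D (bX D i) ((e, 0), i))
  | Itm.X e _ ρ, true => vS τ true false (tag e ρ) (andS e ρ 0 κv false false)
  | Itm.Y e ρ, false => vS τ true false (tag e ρ) (andS e ρ 0 κv true true)
  | Itm.Y e ρ, true => vS τ false true (tag e ρ) (andS e ρ κv (κ - κv) false false)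
  | Itm.Z e i ρ, false => vS τ false false (tag e ρ) (colS D (bZ D i) ((e, 1), i))
  | Itm.Z e _ ρ, true => vS τ false true (tag e ρ) (andS e ρ κv (κ - κv) true true)
  | Itm.P j, s => fun d => if d = 0 then Sy.cst true else if d = 1 then Sy.cst true
      else if d = 2 then Sy.cst s else Sy.cst (j.testBit (d - 3))

/-- The kind of one end of an item. -/
def kd : Itm m r b → Bool → Bool × Bool
  | Itm.X _ _ _, false => (false, false)
  | Itm.X _ _ _, true => (true, false)
  | Itm.Y _ _, false => (true, false)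
  | Itm.Y _ _, true => (false, true)
  | Itm.Z _ _ _, false => (false, false)
  | Itm.Z _ _ _, true => (false, true)
  | Itm.P _, _ => (true, true)

section Words

variable (w1 : ((Fin m × Fin 2) × Fin b) × Bool → Bool)
  (w2 : ((Fin m × Fin r) × Fin κ) × Bool → Bool) (D κv τ : ℕ)

/-- The name of one end of an item. -/
def word (x : Itm m r b) (s : Bool) (d : ℕ) : Bool := (endS D κv τ x s d).ev w1 w2

theorem word_kd (x : Itm m r b) (s : Bool) :
    (word w1 w2 D κv τ x s 0, word w1 w2 D κv τ x s 1) = kd x s := by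
  rcases x with ⟨e, i, ρ⟩ | ⟨e, ρ⟩ | ⟨e, i, ρ⟩ | j <;> cases s <;>
    simp [word, endS, kd, vS, Sy.ev]

/-- The ends have the same name. -/
def Same (L : ℕ) (x : Itm m r b) (s : Bool) (x' : Itm m r b) (s' : Bool) : Prop :=
  ∀ d < L, word w1 w2 D κv τ x s d = word w1 w2 D κv τ x' s' d

variable {w1 w2 D κv τ}

theorem Same.symm {L : ℕ} {x x' : Itm m r b} {s s' : Bool}
    (h : Same w1 w2 D κv τ L x s x' s') : Same w1 w2 D κv τ L x' s' x s :=
  fun d hd => (h d hd).symm

theorem same_kd {L : ℕ} (hL : 2 ≤ L) {x x' : Itm m r b} {s s' : Bool}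
    (h : Same w1 w2 D κv τ L x s x' s') : kd x s = kd x' s' := by
  rw [← word_kd w1 w2 D κv τ, ← word_kd w1 w2 D κv τ, h 0 (by omega), h 1 (by omega)]

theorem vS_eq {L len : ℕ} (hL : 2 + τ + len ≤ L) {T T' : ℕ} (hT : T < 2 ^ τ) (hT' : T' < 2 ^ τ)
    {k0 k1 k0' k1' : Bool} {c c' : ℕ → SB m r b κ}
    (h : ∀ d < L, (vS τ k0 k1 T c d).ev w1 w2 = (vS τ k0' k1' T' c' d).ev w1 w2) :
    T = T' ∧ ∀ t < len, (c t).ev w1 w2 = (c' t).ev w1 w2 := by
  constructor
  · apply Nat.eq_of_testBit_eq
    intro t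
    by_cases ht : t < τ
    · have h1 := h (t + 2) (by omega)
      unfold vS at h1
      rw [if_neg (by omega), if_neg (by omega), if_pos (by omega), if_neg (by omega),
        if_neg (by omega), if_pos (by omega)] at h1
      simpa [Sy.ev] using h1
    · have e1 : T < 2 ^ t := lt_of_lt_of_le hT (Nat.pow_le_pow_right (by norm_num) (by omega))
      have e2 : T' < 2 ^ t := lt_of_lt_of_le hT' (Nat.pow_le_pow_right (by norm_num) (by omega))
      rw [Nat.testBit_lt_two_pow e1, Nat.testBit_lt_two_pow e2]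
  · intro t ht
    have h1 := h (t + (2 + τ)) (by omega)
    unfold vS at h1
    rw [if_neg (by omega), if_neg (by omega), if_neg (by omega), if_neg (by omega),
      if_neg (by omega), if_neg (by omega), Nat.add_sub_cancel] at h1
    exact h1

theorem vS_congr {T : ℕ} {k0 k1 : Bool} {c c' : ℕ → SB m r b κ}
    (h : ∀ t, (c t).ev w1 w2 = (c' t).ev w1 w2) (d : ℕ) :
    (vS τ k0 k1 T c d).ev w1 w2 = (vS τ k0 k1 T c' d).ev w1 w2 := by
  unfold vS
  split_ifs <;> first | rfl | exact h _

theorem col_ev (g : ℕ → Bool) (q : (Fin m × Fin 2) × Fin b) (t : ℕ) (ht : t < D + 2) :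
    (colS (r := r) (κ := κ) D g q t).ev w1 w2 =
      (if g t then !(w1 (q, false)) else !(w1 (q, true))) := by
  unfold colS
  rw [if_pos ht]
  split_ifs <;> simp [Sy.ev]

theorem nat_eq_of_testBit {i i' D : ℕ} (hi : i < 2 ^ D) (hi' : i' < 2 ^ D)
    (h : ∀ t < D, i.testBit t = i'.testBit t) : i = i' := by
  apply Nat.eq_of_testBit_eq
  intro t
  by_cases ht : t < D
  · exact h t ht
  · have e1 : i < 2 ^ t := lt_of_lt_of_le hi (Nat.pow_le_pow_right (by norm_num) (by omega))
    have e2 : i' < 2 ^ t := lt_of_lt_of_le hi' (Nat.pow_le_pow_right (by norm_num) (by omega))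
    rw [Nat.testBit_lt_two_pow e1, Nat.testBit_lt_two_pow e2]

theorem not_all_ones {i D : ℕ} (hi : i + 1 < 2 ^ D) (h : ∀ t < D, i.testBit t = true) : False := by
  have e : i = 2 ^ D - 1 := by
    apply nat_eq_of_testBit (D := D) (by omega) (by omega)
    intro t ht
    rw [h t ht, Nat.testBit_two_pow_sub_one]
    simp [ht]
  omega

/-- Columns of the first row. -/
theorem colX_sep {i i' : ℕ} (hi : i < 2 ^ D) (hi' : i' < 2 ^ D) {x y x' y' : Bool}
    (hxy : x = true ∨ y = true)
    (h : ∀ t < D + 2, (if bX D i t then !x else !y) = (if bX D i' t then !x' else !y')) :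
    (x = true ∧ y = true ∧ x' = true ∧ y' = true) ∨ i = i' := by
  have h1 := h D (by omega)
  have h2 := h (D + 1) (by omega)
  have e1 : ∀ i, bX D i D = true := fun i => by simp [bX]
  have e2 : ∀ i, bX D i (D + 1) = false := fun i => by simp [bX]
  rw [e1, e1] at h1
  rw [e2, e2] at h2
  simp only [if_true, Bool.not_inj_iff] at h1
  simp only [Bool.false_eq_true, if_false, Bool.not_inj_iff] at h2
  subst h1
  subst h2
  by_cases hb : x = true ∧ y = true
  · exact Or.inl ⟨hb.1, hb.2, hb.1, hb.2⟩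
  · right
    apply nat_eq_of_testBit hi hi'
    intro t ht
    have h3 := h t (by omega)
    have e3 : ∀ i, bX D i t = i.testBit t := fun i => by simp [bX, ht]
    rw [e3, e3] at h3
    cases hx : x <;> cases hy : y <;> cases ha : i.testBit t <;> cases hb' : i'.testBit t <;>
      simp_all

/-- Columns of the second row. -/
theorem colZ_sep {i i' : ℕ} (hi : i + 1 < 2 ^ D) (hi' : i' + 1 < 2 ^ D) {x y x' y' : Bool}
    (hxy : x = true ∨ y = true) (hxy' : x' = true ∨ y' = true)
    (h : ∀ t < D + 2, (if bZ D i t then !x else !y) = (if bZ D i' t then !x' else !y')) :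
    (x = true ∧ y = true ∧ x' = true ∧ y' = true) ∨ i = i' := by
  have h1 := h D (by omega)
  have e1 : ∀ i, bZ D i D = true := fun i => by simp [bZ]
  rw [e1, e1] at h1
  simp only [if_true, Bool.not_inj_iff] at h1
  subst h1
  have h3 : ∀ t < D, (if i.testBit t then !x else !y) = (if i'.testBit t then !x else !y') := by
    intro t ht
    have h3 := h t (by omega)
    have e3 : ∀ i, bZ D i t = i.testBit t := fun i => by simp [bZ, ht]
    rwa [e3, e3] at h3
  cases hx : x
  · rw [hx] at hxy hxy' h3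
    simp only [Bool.false_eq_true, false_or] at hxy hxy'
    right
    apply nat_eq_of_testBit (by omega : i < 2 ^ D) (by omega : i' < 2 ^ D)
    intro t ht
    have h4 := h3 t ht
    rw [hxy, hxy'] at h4
    cases ha : i.testBit t <;> cases hb' : i'.testBit t <;> simp_all
  · rw [hx] at h3
    cases hy : y <;> cases hy' : y'
    · right
      apply nat_eq_of_testBit (by omega : i < 2 ^ D) (by omega : i' < 2 ^ D)
      intro t ht
      have h4 := h3 t ht
      rw [hy, hy'] at h4
      cases ha : i.testBit t <;> cases hb' : i'.testBit t <;> simp_all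
    · exfalso
      apply not_all_ones hi
      intro t ht
      have h4 := h3 t ht
      rw [hy, hy'] at h4
      cases ha : i.testBit t <;> simp_all
    · exfalso
      apply not_all_ones hi'
      intro t ht
      have h4 := h3 t ht
      rw [hy, hy'] at h4
      cases ha : i'.testBit t <;> simp_all
    · exact Or.inl ⟨rfl, rfl, rfl, rfl⟩

/-- A column of the first row and a column of the second row. -/
theorem colXZ_sep {i i' : ℕ} (hi' : i' + 1 < 2 ^ D) {x y x' y' : Bool}
    (hxy : x = true ∨ y = true)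
    (h : ∀ t < D + 2, (if bX D i t then !x else !y) = (if bZ D i' t then !x' else !y')) :
    x = true ∧ y = true ∧ x' = true ∧ y' = true := by
  have h1 := h D (by omega)
  have h2 := h (D + 1) (by omega)
  have e1 : ∀ i, bX D i D = true := fun i => by simp [bX]
  have e2 : ∀ i, bX D i (D + 1) = false := fun i => by simp [bX]
  have e3 : ∀ i, bZ D i D = true := fun i => by simp [bZ]
  have e4 : ∀ i, bZ D i (D + 1) = true := fun i => by simp [bZ]
  rw [e1, e3] at h1
  rw [e2, e4] at h2
  simp only [if_true, Bool.not_inj_iff] at h1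
  simp only [Bool.false_eq_true, if_false, if_true, Bool.not_inj_iff] at h2
  subst h1
  subst h2
  have hx : y = true := by simpa using hxy
  refine ⟨hx, hx, hx, ?_⟩
  by_contra hy
  rw [Bool.not_eq_true] at hy
  apply not_all_ones hi'
  intro t ht
  have h4 := h t (by omega)
  have e5 : bZ D i' t = i'.testBit t := by simp [bZ, ht]
  rw [e5, hx, hy] at h4
  cases ha : i'.testBit t
  · rw [ha] at h4; simp at h4
  · rfl

end Words

end Pool.Agent.K7.H45.TD3
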