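import Pool.Agent.K7.H45.TD3.Inst

/-!
The triangles of the hard instances.
-/

namespace Pool.Agent.K7.H45.TD3

open Finset Classical Pool.Agent.H596R2.D3 Pool.Agent.H596R2.D3R

variable {m r b κ : ℕ}

section Words

variable {w1 : ((Fin m × Fin 2) × Fin b) × Bool → Bool}
  {w2 : ((Fin m × Fin r) × Fin κ) × Bool → Bool} {D κv τ : ℕ}

theorem same_XX {L : ℕ} (hL : 2 + τ + (D + 2) ≤ L) (hT : m * r ≤ 2 ^ τ) (hb : b < 2 ^ D)
    (ho : Opened w1) (hs : Single w1) {e e' : Fin m} {i i' : Fin b} {ρ ρ' : Fin r}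
    (h : Same w1 w2 D κv τ L (Itm.X e i ρ) false (Itm.X e' i' ρ') false) :
    (Itm.X e i ρ : Itm m r b) = Itm.X e' i' ρ' := by
  obtain ⟨h1, h2⟩ := vS_eq hL (lt_of_lt_of_le (tag_lt e ρ) hT) (lt_of_lt_of_le (tag_lt e' ρ') hT) h
  obtain ⟨rfl, rfl⟩ := tag_inj h1
  have h3 := colX_sep (D := D) (i := i) (i' := i') (by omega) (by omega)
    (x := w1 (((e, 0), i), false)) (y := w1 (((e, 0), i), true))
    (x' := w1 (((e, 0), i'), false)) (y' := w1 (((e, 0), i'), true)) (ho _) (by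
      intro t ht
      have := h2 t ht
      rwa [col_ev _ _ _ ht, col_ev _ _ _ ht] at this)
  rcases h3 with ⟨a1, a2, a3, a4⟩ | h3
  · rw [hs (e, 0) i i' ⟨a1, a2⟩ ⟨a3, a4⟩]
  · rw [Fin.ext h3]

theorem same_ZZ {L : ℕ} (hL : 2 + τ + (D + 2) ≤ L) (hT : m * r ≤ 2 ^ τ) (hb : b < 2 ^ D)
    (ho : Opened w1) (hs : Single w1) {e e' : Fin m} {i i' : Fin b} {ρ ρ' : Fin r}
    (h : Same w1 w2 D κv τ L (Itm.Z e i ρ) false (Itm.Z e' i' ρ') false) :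
    (Itm.Z e i ρ : Itm m r b) = Itm.Z e' i' ρ' := by
  obtain ⟨h1, h2⟩ := vS_eq hL (lt_of_lt_of_le (tag_lt e ρ) hT) (lt_of_lt_of_le (tag_lt e' ρ') hT) h
  obtain ⟨rfl, rfl⟩ := tag_inj h1
  have h3 := colZ_sep (D := D) (i := i) (i' := i') (by omega) (by omega)
    (x := w1 (((e, 1), i), false)) (y := w1 (((e, 1), i), true))
    (x' := w1 (((e, 1), i'), false)) (y' := w1 (((e, 1), i'), true)) (ho _) (ho _) (by
      intro t ht
      have := h2 t ht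
      rwa [col_ev _ _ _ ht, col_ev _ _ _ ht] at this)
  rcases h3 with ⟨a1, a2, a3, a4⟩ | h3
  · rw [hs (e, 1) i i' ⟨a1, a2⟩ ⟨a3, a4⟩]
  · rw [Fin.ext h3]

theorem same_XZ {L : ℕ} (hL : 2 + τ + (D + 2) ≤ L) (hT : m * r ≤ 2 ^ τ) (hb : b < 2 ^ D)
    (ho : Opened w1) {e e' : Fin m} {i i' : Fin b} {ρ ρ' : Fin r}
    (h : Same w1 w2 D κv τ L (Itm.X e i ρ) false (Itm.Z e' i' ρ') false) :
    e = e' ∧ ρ = ρ' ∧ (w1 (((e, 0), i), false) = true ∧ w1 (((e, 0), i), true) = true) ∧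
      (w1 (((e, 1), i'), false) = true ∧ w1 (((e, 1), i'), true) = true) := by
  obtain ⟨h1, h2⟩ := vS_eq hL (lt_of_lt_of_le (tag_lt e ρ) hT) (lt_of_lt_of_le (tag_lt e' ρ') hT) h
  obtain ⟨rfl, rfl⟩ := tag_inj h1
  have h3 := colXZ_sep (D := D) (i := i) (i' := i') (by omega)
    (x := w1 (((e, 0), i), false)) (y := w1 (((e, 0), i), true))
    (x' := w1 (((e, 1), i'), false)) (y' := w1 (((e, 1), i'), true)) (ho _) (by
      intro t ht
      have := h2 t ht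
      rwa [col_ev _ _ _ ht, col_ev _ _ _ ht] at this)
  exact ⟨rfl, rfl, ⟨h3.1, h3.2.1⟩, ⟨h3.2.2.1, h3.2.2.2⟩⟩

theorem same_XZ_of {L : ℕ} {e : Fin m} {i i' : Fin b} {ρ : Fin r}
    (h1 : w1 (((e, 0), i), false) = true ∧ w1 (((e, 0), i), true) = true)
    (h2 : w1 (((e, 1), i'), false) = true ∧ w1 (((e, 1), i'), true) = true) :
    Same w1 w2 D κv τ L (Itm.X e i ρ) false (Itm.Z e i' ρ) false := by
  intro d _
  apply vS_congr
  intro t
  unfold colS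
  by_cases ht : t < D + 2
  · rw [if_pos ht, if_pos ht]
    split_ifs <;> simp [Sy.ev, h1.1, h1.2, h2.1, h2.2]
  · rw [if_neg ht, if_neg ht]

theorem same_XY {L : ℕ} (hL : 2 + τ + κv ≤ L) (hT : m * r ≤ 2 ^ τ)
    {e e' : Fin m} {i : Fin b} {ρ ρ' : Fin r}
    (h : Same w1 w2 D κv τ L (Itm.X e i ρ) true (Itm.Y e' ρ') false) :
    e = e' ∧ ρ = ρ' ∧ ∀ l : Fin κ, l.val < κv →
      ¬ (w2 (((e, ρ), l), false) = true ∧ w2 (((e, ρ), l), true) = true) := by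
  obtain ⟨h1, h2⟩ := vS_eq hL (lt_of_lt_of_le (tag_lt e ρ) hT) (lt_of_lt_of_le (tag_lt e' ρ') hT) h
  obtain ⟨rfl, rfl⟩ := tag_inj h1
  refine ⟨rfl, rfl, ?_⟩
  rintro l hl ⟨a1, a2⟩
  have h3 := h2 l hl
  have hc : l.val < κv ∧ 0 + l.val < κ := ⟨hl, by have := l.isLt; omega⟩
  unfold andS at h3
  rw [dif_pos hc, dif_pos hc] at h3
  have e0 : (⟨0 + l.val, hc.2⟩ : Fin κ) = l := Fin.ext (by simp)
  rw [e0] at h3
  simp [Sy.ev, a1, a2] at h3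

theorem same_XY_of {L : ℕ} (ho : Opened w2) {e : Fin m} {i : Fin b} {ρ : Fin r}
    (h : ∀ l : Fin κ, ¬ (w2 (((e, ρ), l), false) = true ∧ w2 (((e, ρ), l), true) = true)) :
    Same w1 w2 D κv τ L (Itm.X e i ρ) true (Itm.Y e ρ) false := by
  intro d _
  apply vS_congr
  intro t
  unfold andS
  by_cases ht : t < κv ∧ 0 + t < κ
  · rw [dif_pos ht, dif_pos ht]
    have h1 := h ⟨0 + t, ht.2⟩
    have h2 := ho ((e, ρ), ⟨0 + t, ht.2⟩)
    simp only [Sy.ev]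
    generalize w2 (((e, ρ), ⟨0 + t, ht.2⟩), false) = x at *
    generalize w2 (((e, ρ), ⟨0 + t, ht.2⟩), true) = y at *
    cases x <;> cases y <;> simp_all
  · rw [dif_neg ht, dif_neg ht]

theorem same_YZ {L : ℕ} (hL : 2 + τ + (κ - κv) ≤ L) (hT : m * r ≤ 2 ^ τ)
    {e e' : Fin m} {i : Fin b} {ρ ρ' : Fin r}
    (h : Same w1 w2 D κv τ L (Itm.Y e ρ) true (Itm.Z e' i ρ') true) :
    e = e' ∧ ρ = ρ' ∧ ∀ l : Fin κ, κv ≤ l.val →
      ¬ (w2 (((e, ρ), l), false) = true ∧ w2 (((e, ρ), l), true) = true) := by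
  obtain ⟨h1, h2⟩ := vS_eq hL (lt_of_lt_of_le (tag_lt e ρ) hT) (lt_of_lt_of_le (tag_lt e' ρ') hT) h
  obtain ⟨rfl, rfl⟩ := tag_inj h1
  refine ⟨rfl, rfl, ?_⟩
  rintro l hl ⟨a1, a2⟩
  have hl2 := l.isLt
  have h3 := h2 (l.val - κv) (by omega)
  have hc : l.val - κv < κ - κv ∧ κv + (l.val - κv) < κ := ⟨by omega, by omega⟩
  unfold andS at h3
  rw [dif_pos hc, dif_pos hc] at h3
  have e0 : (⟨κv + (l.val - κv), hc.2⟩ : Fin κ) = l := Fin.ext (by simp; omega)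
  rw [e0] at h3
  simp [Sy.ev, a1, a2] at h3

theorem same_YZ_of {L : ℕ} (ho : Opened w2) {e : Fin m} {i : Fin b} {ρ : Fin r}
    (h : ∀ l : Fin κ, ¬ (w2 (((e, ρ), l), false) = true ∧ w2 (((e, ρ), l), true) = true)) :
    Same w1 w2 D κv τ L (Itm.Y e ρ) true (Itm.Z e i ρ) true := by
  intro d _
  apply vS_congr
  intro t
  unfold andS
  by_cases ht : t < κ - κv ∧ κv + t < κ
  · rw [dif_pos ht, dif_pos ht]
    have h1 := h ⟨κv + t, ht.2⟩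
    have h2 := ho ((e, ρ), ⟨κv + t, ht.2⟩)
    simp only [Sy.ev]
    generalize w2 (((e, ρ), ⟨κv + t, ht.2⟩), false) = x at *
    generalize w2 (((e, ρ), ⟨κv + t, ht.2⟩), true) = y at *
    cases x <;> cases y <;> simp_all
  · rw [dif_neg ht, dif_neg ht]

theorem same_YY {L : ℕ} (hL : 2 + τ ≤ L) (hT : m * r ≤ 2 ^ τ)
    {e e' : Fin m} {ρ ρ' : Fin r}
    (h : Same w1 w2 D κv τ L (Itm.Y e ρ) false (Itm.Y e' ρ') false) :
    (Itm.Y e ρ : Itm m r b) = Itm.Y e' ρ' := by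
  obtain ⟨h1, -⟩ := vS_eq (len := 0) (by omega) (lt_of_lt_of_le (tag_lt e ρ) hT)
    (lt_of_lt_of_le (tag_lt e' ρ') hT) h
  obtain ⟨rfl, rfl⟩ := tag_inj h1
  rfl

theorem same_PP {L M : ℕ} (hL : 3 + M ≤ L) {j j' : ℕ} (hj : j < 2 ^ M) (hj' : j' < 2 ^ M)
    {s s' : Bool}
    (h : Same w1 w2 D κv τ L (Itm.P j : Itm m r b) s (Itm.P j') s') : j = j' ∧ s = s' := by
  constructor
  · apply nat_eq_of_testBit hj hj'
    intro t ht
    have := h (t + 3) (by omega)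
    simpa [word, endS, Sy.ev] using this
  · have := h 2 (by omega)
    simpa [word, endS, Sy.ev] using this

end Words

section List

variable {n : ℕ} (D κv τ : ℕ) (dv : Fin n → Itm m r b)

/-- The instance. -/
def XL (w1 : ((Fin m × Fin 2) × Fin b) × Bool → Bool)
    (w2 : ((Fin m × Fin r) × Fin κ) × Bool → Bool) : EBit n → Bool :=
  fun x => (endS D κv τ (dv x.1) x.2.1 x.2.2.val).ev w1 w2

variable {D κv τ dv} {w1 : ((Fin m × Fin 2) × Fin b) × Bool → Bool}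
    {w2 : ((Fin m × Fin r) × Fin κ) × Bool → Bool}

theorem vtx_eq_iff (j j' : Fin n) (s s' : Bool) :
    vtx (XL D κv τ dv w1 w2) j s = vtx (XL D κv τ dv w1 w2) j' s' ↔
      Same w1 w2 D κv τ (wlen n) (dv j) s (dv j') s' := by
  constructor
  · intro h d hd
    exact congrFun h ⟨d, hd⟩
  · intro h
    funext d
    exact h d.val d.isLt

/-- The assumptions on the parameters. -/
structure Par (n m r b κ D κv τ : ℕ) (dv : Fin n → Itm m r b) : Prop where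
  inj : Function.Injective dv
  pad : ∀ j i, dv j = Itm.P i → i < n
  hD : 2 + τ + (D + 2) ≤ wlen n
  hv : 2 + τ + κv ≤ wlen n
  hw : 2 + τ + (κ - κv) ≤ wlen n
  hT : m * r ≤ 2 ^ τ
  hb : b < 2 ^ D

theorem valid (hp : Par n m r b κ D κv τ dv) (ho : Opened w1) (hs : Single w1) :
    ValidList (XL D κv τ dv w1 w2) := by
  have hL := hp.hD
  have hpj : ∀ j i, dv j = Itm.P i → i < 2 ^ Nat.size n := fun j i h =>
    lt_trans (hp.pad j i h) (Nat.lt_size_self n)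
  have hwl : 3 + Nat.size n ≤ wlen n := by unfold wlen; omega
  constructor
  · intro j j' h
    apply hp.inj
    unfold edge at h
    rw [Sym2.eq_iff] at h
    have key : ∀ x x' : Itm m r b, dv j = x → dv j' = x' → x = x' := by
      intro x x' hx hx'
      rcases h with ⟨h1, h2⟩ | ⟨h1, h2⟩
      · rw [vtx_eq_iff, hx, hx'] at h1 h2
        have k1 := same_kd (by omega) h1
        have k2 := same_kd (by omega) h2
        rcases x with ⟨e, i, ρ⟩ | ⟨e, ρ⟩ | ⟨e, i, ρ⟩ | i <;>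
          rcases x' with ⟨e', i', ρ'⟩ | ⟨e', ρ'⟩ | ⟨e', i', ρ'⟩ | i' <;>
          first
          | (exfalso; simp [kd] at k1 k2; done)
          | exact same_XX hp.hD hp.hT hp.hb ho hs h1
          | exact same_YY (by omega) hp.hT h1
          | exact same_ZZ hp.hD hp.hT hp.hb ho hs h1
          | (have := (same_PP hwl (hpj _ _ hx) (hpj _ _ hx') h1).1
             rw [this])
      · rw [vtx_eq_iff, hx, hx'] at h1 h2
        have k1 := same_kd (by omega) h1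
        have k2 := same_kd (by omega) h2
        rcases x with ⟨e, i, ρ⟩ | ⟨e, ρ⟩ | ⟨e, i, ρ⟩ | i <;>
          rcases x' with ⟨e', i', ρ'⟩ | ⟨e', ρ'⟩ | ⟨e', i', ρ'⟩ | i' <;>
          first
          | (exfalso; simp [kd] at k1 k2; done)
          | (have := (same_PP hwl (hpj _ _ hx) (hpj _ _ hx') h1).1
             rw [this])
    exact key _ _ rfl rfl
  · intro j h
    have key : ∀ x : Itm m r b, dv j = x → False := by
      intro x hx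
      rw [vtx_eq_iff, hx] at h
      have k1 := same_kd (by omega) h
      rcases x with ⟨e, i, ρ⟩ | ⟨e, ρ⟩ | ⟨e, i, ρ⟩ | i
      · simp [kd] at k1
      · simp [kd] at k1
      · simp [kd] at k1
      · have := (same_PP hwl (hpj _ _ hx) (hpj _ _ hx) h).2
        simp at this
    exact key _ rfl

/-- Matching edges. -/
theorem good_of {L : ℕ} (hD : 2 + τ + (D + 2) ≤ L) (hv : 2 + τ + κv ≤ L)
    (hw : 2 + τ + (κ - κv) ≤ L) (hT : m * r ≤ 2 ^ τ) (hb : b < 2 ^ D) (ho : Opened w1)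
    {e e' e'' : Fin m} {i i'' : Fin b} {ρ ρ' ρ'' : Fin r}
    (h1 : Same w1 w2 D κv τ L (Itm.X e i ρ) false (Itm.Z e'' i'' ρ'') false)
    (h2 : Same w1 w2 D κv τ L (Itm.X e i ρ) true (Itm.Y e' ρ') false)
    (h3 : Same w1 w2 D κv τ L (Itm.Y e' ρ') true (Itm.Z e'' i'' ρ'') true) :
    ∃ e ρ f, Good w1 w2 e ρ f := by
  obtain ⟨rfl, rfl, a1, a2⟩ := same_XZ hD hT hb ho h1
  obtain ⟨rfl, rfl, b1⟩ := same_XY hv hT h2
  obtain ⟨-, -, b2⟩ := same_YZ hw hT h3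
  refine ⟨e, ρ, ![i, i''], ?_, ?_⟩
  · intro a
    fin_cases a
    · exact a1
    · exact a2
  · intro l
    by_cases hl : l.val < κv
    · exact b1 l hl
    · exact b2 l (by omega)

theorem kd_ff {x : Itm m r b} {s : Bool} (h : kd x s = (false, false)) :
    (∃ e i ρ, x = Itm.X e i ρ ∧ s = false) ∨ (∃ e i ρ, x = Itm.Z e i ρ ∧ s = false) := by
  rcases x with ⟨e, i, ρ⟩ | ⟨e, ρ⟩ | ⟨e, i, ρ⟩ | j <;> cases s <;> simp [kd] at h ⊢

theorem kd_tf {x : Itm m r b} {s : Bool} (h : kd x s = (true, false)) :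
    (∃ e i ρ, x = Itm.X e i ρ ∧ s = true) ∨ (∃ e ρ, x = Itm.Y e ρ ∧ s = false) := by
  rcases x with ⟨e, i, ρ⟩ | ⟨e, ρ⟩ | ⟨e, i, ρ⟩ | j <;> cases s <;> simp [kd] at h ⊢

theorem kd_ft {x : Itm m r b} {s : Bool} (h : kd x s = (false, true)) :
    (∃ e ρ, x = Itm.Y e ρ ∧ s = true) ∨ (∃ e i ρ, x = Itm.Z e i ρ ∧ s = true) := by
  rcases x with ⟨e, i, ρ⟩ | ⟨e, ρ⟩ | ⟨e, i, ρ⟩ | j <;> cases s <;> simp [kd] at h ⊢

theorem kd_tt {x : Itm m r b} {s : Bool} (h : kd x s = (true, true)) : ∃ j, x = Itm.P j := by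
  rcases x with ⟨e, i, ρ⟩ | ⟨e, ρ⟩ | ⟨e, i, ρ⟩ | j <;> cases s <;> simp [kd] at h ⊢

/-- Three edges that form a triangle. -/
theorem good_of_three {L M : ℕ} (hM : 3 + M ≤ L) (hD : 2 + τ + (D + 2) ≤ L)
    (hv : 2 + τ + κv ≤ L)
    (hw : 2 + τ + (κ - κv) ≤ L) (hT : m * r ≤ 2 ^ τ) (hb : b < 2 ^ D) (ho : Opened w1)
    {x y z : Itm m r b} (hpx : ∀ i, x = Itm.P i → i < 2 ^ M) (hpz : ∀ i, z = Itm.P i → i < 2 ^ M)
    {s t q : Bool}
    (h1 : Same w1 w2 D κv τ L x s z q) (h2 : Same w1 w2 D κv τ L x (!s) y t)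
    (h3 : Same w1 w2 D κv τ L y (!t) z (!q))
    (hne : ¬ Same w1 w2 D κv τ L x (!s) z (!q)) :
    ∃ e ρ f, Good w1 w2 e ρ f := by
  have k1 := same_kd (by omega) h1
  have k2 := same_kd (by omega) h2
  have k3 := same_kd (by omega) h3
  rcases x with ⟨e, i, ρ⟩ | ⟨e, ρ⟩ | ⟨e, i, ρ⟩ | j
  · -- `x` joins the first and the second kind
    cases s
    · rcases kd_ff k1.symm with ⟨e', i', ρ', rfl, rfl⟩ | ⟨e', i', ρ', rfl, rfl⟩
      · rcases kd_tf k2.symm with ⟨e2, i2, ρ2, rfl, rfl⟩ | ⟨e2, ρ2, rfl, rfl⟩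
        · simp [kd] at k3
        · simp [kd] at k3
      · rcases kd_tf k2.symm with ⟨e2, i2, ρ2, rfl, rfl⟩ | ⟨e2, ρ2, rfl, rfl⟩
        · simp [kd] at k3
        · exact good_of hD hv hw hT hb ho h1 h2 h3
    · rcases kd_tf k1.symm with ⟨e', i', ρ', rfl, rfl⟩ | ⟨e', ρ', rfl, rfl⟩
      · rcases kd_ff k2.symm with ⟨e2, i2, ρ2, rfl, rfl⟩ | ⟨e2, i2, ρ2, rfl, rfl⟩
        · simp [kd] at k3
        · simp [kd] at k3
      · rcases kd_ff k2.symm with ⟨e2, i2, ρ2, rfl, rfl⟩ | ⟨e2, i2, ρ2, rfl, rfl⟩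
        · simp [kd] at k3
        · exact good_of hD hv hw hT hb ho h2 h1 h3.symm
  · cases s
    · -- `x = Y`, first end `v`
      rcases kd_tf k1.symm with ⟨e', i', ρ', rfl, rfl⟩ | ⟨e', ρ', rfl, rfl⟩
      · rcases kd_ft k2.symm with ⟨e2, ρ2, rfl, rfl⟩ | ⟨e2, i2, ρ2, rfl, rfl⟩
        · simp [kd] at k3
        · exact good_of hD hv hw hT hb ho h3.symm h1.symm h2
      · rcases kd_ft k2.symm with ⟨e2, ρ2, rfl, rfl⟩ | ⟨e2, i2, ρ2, rfl, rfl⟩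
        · simp [kd] at k3
        · simp [kd] at k3
    · rcases kd_ft k1.symm with ⟨e', ρ', rfl, rfl⟩ | ⟨e', i', ρ', rfl, rfl⟩
      · rcases kd_tf k2.symm with ⟨e2, i2, ρ2, rfl, rfl⟩ | ⟨e2, ρ2, rfl, rfl⟩
        · simp [kd] at k3
        · simp [kd] at k3
      · rcases kd_tf k2.symm with ⟨e2, i2, ρ2, rfl, rfl⟩ | ⟨e2, ρ2, rfl, rfl⟩
        · exact good_of hD hv hw hT hb ho h3 h2.symm h1
        · simp [kd] at k3
  · cases s
    · rcases kd_ff k1.symm with ⟨e', i', ρ', rfl, rfl⟩ | ⟨e', i', ρ', rfl, rfl⟩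
      · rcases kd_ft k2.symm with ⟨e2, ρ2, rfl, rfl⟩ | ⟨e2, i2, ρ2, rfl, rfl⟩
        · exact good_of hD hv hw hT hb ho h1.symm h3.symm h2.symm
        · simp [kd] at k3
      · rcases kd_ft k2.symm with ⟨e2, ρ2, rfl, rfl⟩ | ⟨e2, i2, ρ2, rfl, rfl⟩
        · simp [kd] at k3
        · simp [kd] at k3
    · rcases kd_ft k1.symm with ⟨e', ρ', rfl, rfl⟩ | ⟨e', i', ρ', rfl, rfl⟩
      · rcases kd_ff k2.symm with ⟨e2, i2, ρ2, rfl, rfl⟩ | ⟨e2, i2, ρ2, rfl, rfl⟩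
        · exact good_of hD hv hw hT hb ho h2.symm h3 h1.symm
        · simp [kd] at k3
      · rcases kd_ff k2.symm with ⟨e2, i2, ρ2, rfl, rfl⟩ | ⟨e2, i2, ρ2, rfl, rfl⟩
        · simp [kd] at k3
        · simp [kd] at k3
  · exfalso
    obtain ⟨j', rfl⟩ := kd_tt (x := z) (s := q) (by rw [← k1]; rfl)
    obtain ⟨rfl, rfl⟩ := same_PP hM (hpx j rfl) (hpz j' rfl) h1
    exact hne fun d _ => rfl

theorem triangle_iff (hp : Par n m r b κ D κv τ dv)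
    (hX : ∀ e i ρ, ∃ j, dv j = Itm.X e i ρ) (hY : ∀ e ρ, ∃ j, dv j = Itm.Y e ρ)
    (hZ : ∀ e i ρ, ∃ j, dv j = Itm.Z e i ρ) (ho : Opened w1) (ho2 : Opened w2) :
    HasTriangle (XL D κv τ dv w1 w2) ↔ ∃ e ρ f, Good w1 w2 e ρ f := by
  have hwl : 3 + Nat.size n ≤ wlen n := by unfold wlen; omega
  have hpj : ∀ j i, dv j = Itm.P i → i < 2 ^ Nat.size n := fun j i h =>
    lt_trans (hp.pad j i h) (Nat.lt_size_self n)
  rw [tri_iff]
  constructor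
  · rintro ⟨a, b', c, h1, h2, h3⟩
    rw [adj_iff] at h1 h2 h3
    obtain ⟨hab, j1, s1, p1, q1⟩ := h1
    obtain ⟨hac, j3, s3, p3, q3⟩ := h2
    obtain ⟨hbc, j2, s2, p2, q2⟩ := h3
    have e1 : vtx (XL D κv τ dv w1 w2) j1 s1 = vtx (XL D κv τ dv w1 w2) j3 s3 := by rw [p1, p3]
    have e2 : vtx (XL D κv τ dv w1 w2) j1 (!s1) = vtx (XL D κv τ dv w1 w2) j2 s2 := by
      rw [q1, p2]
    have e3 : vtx (XL D κv τ dv w1 w2) j2 (!s2) = vtx (XL D κv τ dv w1 w2) j3 (!s3) := by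
      rw [q2, q3]
    rw [vtx_eq_iff] at e1 e2 e3
    refine good_of_three hwl hp.hD hp.hv hp.hw hp.hT hp.hb ho (hpj j1) (hpj j3) e1 e2 e3 ?_
    rw [← vtx_eq_iff, q1, q3]
    exact hbc
  · rintro ⟨e, ρ, f, hg1, hg2⟩
    obtain ⟨j1, hj1⟩ := hX e (f 0) ρ
    obtain ⟨j2, hj2⟩ := hY e ρ
    obtain ⟨j3, hj3⟩ := hZ e (f 1) ρ
    have e1 : vtx (XL D κv τ dv w1 w2) j1 false = vtx (XL D κv τ dv w1 w2) j3 false := by
      rw [vtx_eq_iff, hj1, hj3]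
      exact same_XZ_of (hg1 0) (hg1 1)
    have e2 : vtx (XL D κv τ dv w1 w2) j1 true = vtx (XL D κv τ dv w1 w2) j2 false := by
      rw [vtx_eq_iff, hj1, hj2]
      exact same_XY_of ho2 hg2
    have e3 : vtx (XL D κv τ dv w1 w2) j2 true = vtx (XL D κv τ dv w1 w2) j3 true := by
      rw [vtx_eq_iff, hj2, hj3]
      exact same_YZ_of ho2 hg2
    have hne : ∀ j j' s s', kd (dv j) s ≠ kd (dv j') s' →
        vtx (XL D κv τ dv w1 w2) j s ≠ vtx (XL D κv τ dv w1 w2) j' s' := by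
      intro j j' s s' hk h
      rw [vtx_eq_iff] at h
      exact hk (same_kd (by omega) h)
    refine ⟨vtx (XL D κv τ dv w1 w2) j1 false, vtx (XL D κv τ dv w1 w2) j1 true,
      vtx (XL D κv τ dv w1 w2) j2 true, ?_, ?_, ?_⟩
    · rw [adj_iff]
      exact ⟨hne _ _ _ _ (by rw [hj1]; simp [kd]), j1, false, rfl, rfl⟩
    · rw [adj_iff]
      exact ⟨hne _ _ _ _ (by rw [hj1, hj2]; simp [kd]), j3, false, e1.symm, e3.symm⟩
    · rw [adj_iff]
      exact ⟨hne _ _ _ _ (by rw [hj1, hj2]; simp [kd]), j2, false, e2.symm, rfl⟩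

end List

end Pool.Agent.K7.H45.TD3
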