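import Pool.Agent.H596R2.D3R.Expect

/-!
Choice of the parameters for triangle detection by circuits of depth three.
-/

namespace Pool.Agent.K7.H45.TD3

open Finset Classical Pool.Agent.H596R2.D3 Pool.Agent.H596R2.D3R

/-- The first part, for two rows in every mode. -/
theorem part_one (η : ℝ) (hη : 0 < η) (m R0 u v q : ℕ) (hm : 0 < m) (hu : 1 ≤ u) (hv : 1 ≤ v)
    (hvu : v + 2 ≤ 2 * u) :
    ∀ᶠ t : ℕ in Filter.atTop, ∀ n s : ℕ, 2 ^ (u * t) ≤ n → s ≤ 2 ^ ((t + 1) * (v - 1)) →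
      (2 ^ 2) ^ m * bad s (v * t) 1 (m * 2) (cb m (rr R0 u v q t) n) ≤ η := by
  set B0 := m * (2 * (R0 * (v * ((q + 1) * u)) ^ 2) + 2) with hB0
  set B : ℝ := 2 * (B0 : ℝ) with hB
  have hB0pos : 0 < B0 := Nat.mul_pos hm (by omega)
  have hBpos : 0 < B := by
    have : (0 : ℝ) < B0 := by exact_mod_cast hB0pos
    rw [hB]; linarith
  set G : ℝ := (2 ^ 2) ^ m with hG
  set H : ℝ := 4 ^ (m * 2) with hH
  have hGpos : 0 < G := by rw [hG]; positivity
  have hHpos : 0 < H := by rw [hH]; positivity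
  have hm1 : (1 : ℝ) ≤ m := by exact_mod_cast hm
  have hv' : (0 : ℝ) < v := by exact_mod_cast hv
  set C1 : ℝ := 9 * m * B * H * (v : ℝ) ^ 2 + 3 * B ^ 2 * 2 ^ (2 * u) * H * (v : ℝ) ^ 2
    with hC1
  have hC1pos : 0 < C1 := by rw [hC1]; positivity
  have e1 := ev_poly_two (G * C1) (η / 2) 6 (by positivity)
  have e2 := ev_poly_two (G * 2 ^ v) (η / 2) 0 (by positivity)
  have e3 := cb_lower m R0 u v q hm hu
  filter_upwards [e1, e2, e3, Filter.eventually_ge_atTop 1] with t f1 f2 f3 ht1 n s hn hs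
  obtain ⟨hb0, hb1⟩ := f3 n hn
  rw [← hB0] at hb1
  have ht0 : (0 : ℝ) < (t : ℝ) + 1 := by positivity
  have ht1' : (1 : ℝ) ≤ (t : ℝ) + 1 := by
    have : (0 : ℝ) ≤ t := by positivity
    linarith
  have hp1 : 1 ≤ v * t := Nat.mul_pos hv ht1
  have h2t : 2 ^ t ≤ n := le_trans (Nat.pow_le_pow_right (by norm_num) (by nlinarith)) hn
  have h2t' : (2 : ℝ) ^ t ≤ n := by exact_mod_cast h2t
  have hnpos : (0 : ℝ) < n := lt_of_lt_of_le (by positivity) h2t'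
  have hn1 : (1 : ℝ) ≤ n := le_trans (one_le_pow₀ (by norm_num)) h2t'
  have hb := bad_le s (v * t) 1 (m * 2) (cb m (rr R0 u v q t) n) hp1
  set K : ℝ := (cb m (rr R0 u v q t) n : ℝ) with hK
  have hKpos : 0 < K := by rw [hK]; exact_mod_cast hb0
  have hK1 : 1 ≤ K := by rw [hK]; exact_mod_cast hb0
  have hKinv : 1 / K ≤ B * ((t : ℝ) + 1) ^ 2 / n := by
    rw [div_le_div_iff₀ hKpos hnpos]
    have h5 : (n : ℝ) ≤ K * (B * ((t : ℝ) + 1) ^ 2) := by
      rw [div_le_iff₀ (by positivity)] at hb1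
      exact hb1
    linarith
  have hs' : (s : ℝ) ≤ 2 ^ ((t + 1) * (v - 1)) := by exact_mod_cast hs
  have hsn : (s : ℝ) / (n : ℝ) ^ 2 ≤ 2 ^ (2 * u) / 2 ^ t := by
    have hn3 : (2 : ℝ) ^ (2 * (u * t)) ≤ (n : ℝ) ^ 2 := by
      have : (2 : ℝ) ^ (u * t) ≤ n := by exact_mod_cast hn
      rw [mul_comm 2, pow_mul]
      gcongr
    rw [div_le_div_iff₀ (by positivity) (by positivity)]
    calc (s : ℝ) * 2 ^ t ≤ 2 ^ ((t + 1) * (v - 1)) * 2 ^ t := by gcongr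
      _ = 2 ^ ((t + 1) * (v - 1) + t) := (pow_add _ _ _).symm
      _ ≤ 2 ^ (2 * u + 2 * (u * t)) := by
          apply pow_le_pow_right₀ (by norm_num)
          obtain ⟨w, hw⟩ : ∃ w, v = w + 1 := ⟨v - 1, by omega⟩
          subst hw
          rw [Nat.add_sub_cancel]
          have h6 : w + 3 ≤ 2 * u := by omega
          have h7 : (t + 1) * (w + 3) ≤ (t + 1) * (2 * u) := Nat.mul_le_mul_left _ h6
          have h8 : (t + 1) * (w + 3) = (t + 1) * w + 3 * t + 3 := by ring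
          have h9 : (t + 1) * (2 * u) = 2 * (u * t) + 2 * u := by ring
          omega
      _ = 2 ^ (2 * u) * 2 ^ (2 * (u * t)) := pow_add _ _ _
      _ ≤ 2 ^ (2 * u) * (n : ℝ) ^ 2 := by gcongr
  have hmain : (4 * (((m * 2 : ℕ) : ℝ) * K) + 1 + 3 * s) * 4 ^ (m * 2) *
      ((v * t : ℕ) : ℝ) ^ (1 + 1) / K ^ (1 + 1) ≤ C1 * ((t : ℝ) + 1) ^ 6 / 2 ^ t := by
    have g1 : (4 * (((m * 2 : ℕ) : ℝ) * K) + 1) ≤ 9 * m * K := by
      push_cast
      have : 1 ≤ (m : ℝ) * K := one_le_mul_of_one_le_of_one_le hm1 hK1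
      nlinarith
    have g2 : ((v * t : ℕ) : ℝ) ^ (1 + 1) ≤ (v : ℝ) ^ 2 * ((t : ℝ) + 1) ^ 2 := by
      rw [← mul_pow]
      have : ((v * t : ℕ) : ℝ) ≤ v * ((t : ℝ) + 1) := by
        push_cast
        nlinarith
      gcongr
    have g4 : 1 / K ^ 2 ≤ (B * ((t : ℝ) + 1) ^ 2 / n) ^ 2 := by
      rw [← one_div_pow]; gcongr
    have g5 : 1 / (n : ℝ) ≤ 1 / 2 ^ t := by
      apply div_le_div_of_nonneg_left (by norm_num) (by positivity)
      exact h2t'
    calc _ ≤ (9 * m * K + 3 * s) * H * ((v : ℝ) ^ 2 * ((t : ℝ) + 1) ^ 2) / K ^ (1 + 1) := by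
          rw [← hH]; gcongr
      _ = 9 * m * H * (v : ℝ) ^ 2 * ((t : ℝ) + 1) ^ 2 * (1 / K) +
          3 * H * (v : ℝ) ^ 2 * ((t : ℝ) + 1) ^ 2 * s * (1 / K ^ 2) := by
          field_simp
      _ ≤ 9 * m * H * (v : ℝ) ^ 2 * ((t : ℝ) + 1) ^ 2 * (B * ((t : ℝ) + 1) ^ 2 / n) +
          3 * H * (v : ℝ) ^ 2 * ((t : ℝ) + 1) ^ 2 * s * (B * ((t : ℝ) + 1) ^ 2 / n) ^ 2 := by
          gcongr
      _ = 9 * m * B * H * (v : ℝ) ^ 2 * ((t : ℝ) + 1) ^ 4 * (1 / (n : ℝ)) +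
          3 * B ^ 2 * H * (v : ℝ) ^ 2 * ((t : ℝ) + 1) ^ 6 * (s / (n : ℝ) ^ 2) := by
          field_simp
      _ ≤ 9 * m * B * H * (v : ℝ) ^ 2 * ((t : ℝ) + 1) ^ 6 * (1 / 2 ^ t) +
          3 * B ^ 2 * H * (v : ℝ) ^ 2 * ((t : ℝ) + 1) ^ 6 * (2 ^ (2 * u) / 2 ^ t) := by
          have : ((t : ℝ) + 1) ^ 4 ≤ ((t : ℝ) + 1) ^ 6 := pow_le_pow_right₀ ht1' (by norm_num)
          gcongr
      _ = C1 * ((t : ℝ) + 1) ^ 6 / 2 ^ t := by
          rw [hC1]; ring
  have h1 := first_term s v t hv hs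
  have h2 := mul_le_mul_of_nonneg_left (hb.trans (add_le_add h1 hmain)) hGpos.le
  refine h2.trans ?_
  rw [mul_add]
  have e5 : G * (2 ^ v / 2 ^ t) ≤ η / 2 := by
    refine le_trans (le_of_eq ?_) f2
    rw [pow_zero]; ring
  have e6 : G * (C1 * ((t : ℝ) + 1) ^ 6 / 2 ^ t) ≤ η / 2 := by
    refine le_trans (le_of_eq ?_) f1
    ring
  linarith

theorem two_pow_size_le (k : ℕ) (hk : 0 < k) : 2 ^ Nat.size k ≤ 2 * k := by
  have h : Nat.size k ≤ Nat.size k := le_rfl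
  obtain ⟨s, hs⟩ : ∃ s, Nat.size k = s + 1 := ⟨Nat.size k - 1, by
    have := Nat.size_pos.mpr hk
    omega⟩
  have h1 : s < Nat.size k := by omega
  rw [Nat.lt_size] at h1
  rw [hs, pow_succ]
  omega

/-- The parameters: `n` is the length of the list, `m` the number of the modes, `r` the number of
the AND-rows of a mode, `b` the number of the columns of the OR-rows, `κ` the number of the
columns of the AND-rows. -/
theorem tri_params (ε : ℝ) (hε : 0 < ε) (u v : ℕ) (hu : 2 ≤ u) (hv : v + 2 = u * 2) :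
    ∃ m R0 T : ℕ, 0 < m ∧ 0 < R0 ∧ ∀ t ≥ T, ∀ n : ℕ, 2 ^ (u * t) ≤ n → n < 2 ^ (u * (t + 1)) →
      1 ≤ v * t ∧ 0 < kk u v 3 t ∧ 0 < rr R0 u v 3 t ∧ 0 < cb m (rr R0 u v 3 t) n ∧
      m * rr R0 u v 3 t * (2 * cb m (rr R0 u v 3 t) n + 1) ≤ n ∧
      Nat.size (m * rr R0 u v 3 t) + Nat.size (cb m (rr R0 u v 3 t) n) ≤ Nat.size n + 2 ∧
      Nat.size (m * rr R0 u v 3 t) + ((v + 1) * t + 1) / 2 ≤ Nat.size n + 4 ∧
      ∀ s : ℕ, s ≤ 2 ^ ((t + 1) * (v - 1)) →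
        er1 s (v * t) 1 m 2 (cb m (rr R0 u v 3 t) n) +
          er2 s (v * t) (kk u v 3 t) m (rr R0 u v 3 t) ((v + 1) * t) + err3 m 2 ≤ 5 * ε / 4 := by
  have hv1 : 1 ≤ v := by omega
  have hvu3 : v + 2 ≤ 2 * u := by omega
  have hvuq : v + 2 ≤ (3 + 1) * u := by omega
  obtain ⟨m, hm⟩ := exists_nat_ge (16 / ε + 48 / ε ^ 2 + 1)
  have hm0 : 0 < 16 / ε := by positivity
  have hm0' : 0 < 48 / ε ^ 2 := by positivity
  have hmpos : 0 < m := by
    have : (0 : ℝ) < m := by linarith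
    exact_mod_cast this
  obtain ⟨R0, hR⟩ := exists_nat_ge (32 / ε + 1)
  have hr0 : 0 < 32 / ε := by positivity
  have hRpos : 0 < R0 := by
    have : (0 : ℝ) < R0 := by linarith
    exact_mod_cast this
  have h1 := part_one (ε / 4) (by positivity) m R0 u v 3 hmpos (by omega) hv1 hvu3
  have h2 := part_two'' (ε / 4) (by positivity) m R0 u v 3 (by omega) hv1 hvuq
  have h3 := cb_lower m R0 u v 3 hmpos (by omega)
  set K1 := v * ((3 + 1) * u) with hK1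
  have h4 := ev_poly_two (((4 * (m * (R0 * K1 ^ 2))) ^ 2 : ℕ) : ℝ) 1 4 one_pos
  have h5 := ev_poly_two ((((R0 * K1 ^ 2) * (2 * (m * (2 * (R0 * K1 ^ 2) + 2)))) : ℕ) : ℝ) 1 4
    one_pos
  obtain ⟨T, hT⟩ := Filter.eventually_atTop.mp (h1.and (h2.and (h3.and (h4.and h5))))
  refine ⟨m, R0, max T 2, hmpos, hRpos, ?_⟩
  intro t ht n hn hn'
  obtain ⟨a1, a2, a3, a4, a5⟩ := hT t ((le_max_left _ _).trans ht)
  have ht2 : 2 ≤ t := (le_max_right _ _).trans ht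
  have hkpos : 0 < kk u v 3 t := by unfold kk; positivity
  have hrpos : 0 < rr R0 u v 3 t := by unfold rr; positivity
  have h2t : 2 ^ t ≤ n := le_trans (Nat.pow_le_pow_right (by norm_num) (by nlinarith)) hn
  have hnpos : 0 < n := lt_of_lt_of_le (by positivity) h2t
  obtain ⟨b0, b1⟩ := a3 n hn
  have hmr : 0 < m * rr R0 u v 3 t := Nat.mul_pos hmpos hrpos
  -- `r ≤ b`
  have hrb : rr R0 u v 3 t ≤ cb m (rr R0 u v 3 t) n := by
    have hr' : ((rr R0 u v 3 t : ℕ) : ℝ) = R0 * K1 ^ 2 * ((t : ℝ) + 1) ^ 2 := by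
      rw [rr_le, ← hK1]; push_cast; ring
    have h7 : ((rr R0 u v 3 t : ℕ) : ℝ) ≤ cb m (rr R0 u v 3 t) n := by
      refine le_trans ?_ b1
      rw [hr', le_div_iff₀ (by positivity)]
      rw [div_le_one (by positivity)] at a5
      have h2t' : (2 : ℝ) ^ t ≤ n := by exact_mod_cast h2t
      refine le_trans (le_of_eq ?_) (a5.trans h2t')
      push_cast
      ring
    exact_mod_cast h7
  have hcbn : m * (2 * rr R0 u v 3 t + 2) * cb m (rr R0 u v 3 t) n ≤ n := by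
    unfold cb
    exact Nat.mul_div_le _ _
  have hlist : m * rr R0 u v 3 t * (2 * cb m (rr R0 u v 3 t) n + 1) ≤ n := by
    refine le_trans ?_ hcbn
    have : m * rr R0 u v 3 t ≤ m * cb m (rr R0 u v 3 t) n := Nat.mul_le_mul_left _ hrb
    calc m * rr R0 u v 3 t * (2 * cb m (rr R0 u v 3 t) n + 1)
        = 2 * (m * rr R0 u v 3 t * cb m (rr R0 u v 3 t) n) + m * rr R0 u v 3 t := by ring
      _ ≤ 2 * (m * rr R0 u v 3 t * cb m (rr R0 u v 3 t) n) + 2 * (m * cb m (rr R0 u v 3 t) n) := by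
          omega
      _ = _ := by ring
  refine ⟨Nat.mul_pos hv1 (by omega), hkpos, hrpos, b0, hlist, ?_, ?_, ?_⟩
  · have c1 := two_pow_size_le _ hmr
    have c2 := two_pow_size_le _ b0
    have c3 : 2 ^ (Nat.size (m * rr R0 u v 3 t) + Nat.size (cb m (rr R0 u v 3 t) n)) ≤ 2 * n := by
      rw [pow_add]
      calc _ ≤ (2 * (m * rr R0 u v 3 t)) * (2 * cb m (rr R0 u v 3 t) n) := Nat.mul_le_mul c1 c2
        _ = 2 * (m * rr R0 u v 3 t * (2 * cb m (rr R0 u v 3 t) n)) := by ring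
        _ ≤ 2 * n := by
            apply Nat.mul_le_mul_left
            refine le_trans ?_ hlist
            apply Nat.mul_le_mul_left
            omega
    have c4 : 2 * n < 2 ^ (Nat.size n + 1) := by
      have := Nat.lt_size_self n
      rw [pow_succ]
      omega
    have c5 := (Nat.pow_lt_pow_iff_right (a := 2) (by norm_num)).mp (lt_of_le_of_lt c3 c4)
    omega
  · have c1 := two_pow_size_le _ hmr
    have c0 : u * t < Nat.size n := Nat.lt_size.mpr hn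
    have c3 : (4 * (m * rr R0 u v 3 t)) ^ 2 ≤ 2 ^ t := by
      rw [div_le_one (by positivity)] at a4
      have h6 : (4 * (m * (R0 * K1 ^ 2))) ^ 2 * (t + 1) ^ 4 ≤ 2 ^ t := by exact_mod_cast a4
      refine le_trans (le_of_eq ?_) h6
      rw [rr_le, ← hK1]
      ring
    have c4 : 2 ^ (2 * (Nat.size (m * rr R0 u v 3 t) + 1)) ≤ 2 ^ t := by
      refine le_trans ?_ c3
      have e : 2 ^ (2 * (Nat.size (m * rr R0 u v 3 t) + 1)) =
          (2 ^ (Nat.size (m * rr R0 u v 3 t) + 1)) ^ 2 := by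
        rw [mul_comm, pow_mul]
      rw [e]
      apply Nat.pow_le_pow_left
      rw [pow_succ]
      omega
    have c5 := (Nat.pow_le_pow_iff_right (a := 2) (by norm_num)).mp c4
    have c6 : (v + 1) * t + t = 2 * (u * t) := by
      have : (v + 1) * t + t = (v + 2) * t := by ring
      rw [this, hv]; ring
    omega
  · intro s hs
    have b1 := a1 n s hn hs
    have b2 := a2 s hs
    have hmr : (0 : ℝ) < m := by exact_mod_cast hmpos
    have hrr : (0 : ℝ) < R0 := by exact_mod_cast hRpos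
    have c1 : (2 : ℝ) ^ 2 * ((1 * (2 * 1 - 1) : ℕ) : ℝ) / m ≤ ε / 4 := by
      rw [div_le_iff₀ hmr]
      have : 16 / ε ≤ m := by linarith
      rw [div_le_iff₀ hε] at this
      norm_num
      linarith
    have c2 : ((8 * kk u v 3 t ^ 2 : ℕ) : ℝ) / ((rr R0 u v 3 t : ℕ) : ℝ) ≤ ε / 4 := by
      unfold rr
      have hc' : (0 : ℝ) < (kk u v 3 t : ℝ) ^ 2 := by
        have : (0 : ℝ) < (kk u v 3 t : ℝ) := by exact_mod_cast hkpos
        positivity
      push_cast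
      rw [mul_div_mul_right _ _ hc'.ne', div_le_iff₀ hrr]
      have : 32 / ε ≤ R0 := by linarith
      rw [div_le_iff₀ hε] at this
      linarith
    have c3 : err3 m 2 ≤ ε / 4 := by
      unfold err3
      rw [div_le_iff₀ hmr]
      apply Real.sqrt_le_iff.mpr
      refine ⟨by positivity, ?_⟩
      have h5 : 48 / ε ^ 2 ≤ m := by linarith
      rw [div_le_iff₀ (by positivity)] at h5
      nlinarith
    unfold er1 er2
    linarith

end Pool.Agent.K7.H45.TD3
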