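import Pool.Agent.K7.H45.TD3.Inst2
import Pool.Agent.K7.H45.TD3.Param

/-!
The lower bound for triangle detection in edge lists.
-/

namespace Pool.Agent.K7.H45.TD3

open Finset Classical Pool.Agent.H596R2.D3 Pool.Agent.H596R2.D3R

set_option linter.unusedSectionVars false

/-- The items that are not padding. -/
abbrev Bt (m r b : ℕ) : Type :=
  (Fin m × Fin b × Fin r) ⊕ ((Fin m × Fin b × Fin r) ⊕ (Fin m × Fin r))

def toItm {m r b : ℕ} : Bt m r b → Itm m r b
  | Sum.inl x => Itm.X x.1 x.2.1 x.2.2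
  | Sum.inr (Sum.inl x) => Itm.Z x.1 x.2.1 x.2.2
  | Sum.inr (Sum.inr x) => Itm.Y x.1 x.2

theorem toItm_inj {m r b : ℕ} : Function.Injective (toItm : Bt m r b → Itm m r b) := by
  intro x y h
  rcases x with ⟨a1, a2, a3⟩ | ⟨a1, a2, a3⟩ | ⟨a1, a2⟩ <;>
    rcases y with ⟨b1, b2, b3⟩ | ⟨b1, b2, b3⟩ | ⟨b1, b2⟩ <;>
    simp [toItm] at h
  · obtain ⟨rfl, rfl, rfl⟩ := h; rfl
  · obtain ⟨rfl, rfl, rfl⟩ := h; rfl
  · obtain ⟨rfl, rfl⟩ := h; rfl

theorem toItm_ne {m r b : ℕ} (x : Bt m r b) (i : ℕ) : toItm x ≠ Itm.P i := by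
  rcases x with x | x | x <;> simp [toItm]

theorem dv_exists (m r b n : ℕ) (h : m * r * (2 * b + 1) ≤ n) :
    ∃ dv : Fin n → Itm m r b, Function.Injective dv ∧ (∀ j i, dv j = Itm.P i → i < n) ∧
      (∀ e i ρ, ∃ j, dv j = Itm.X e i ρ) ∧ (∀ e ρ, ∃ j, dv j = Itm.Y e ρ) ∧
      (∀ e i ρ, ∃ j, dv j = Itm.Z e i ρ) := by
  obtain ⟨fv⟩ : Nonempty (Bt m r b ↪ Fin n) := by
    apply Function.Embedding.nonempty_of_card_le
    simp only [Fintype.card_sum, Fintype.card_prod, Fintype.card_fin]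
    refine le_trans ?_ h
    have : m * r * (2 * b + 1) = m * (b * r) + (m * (b * r) + m * r) := by ring
    omega
  have hv : ∀ x, Function.partialInv fv (fv x) = some x := fun x =>
    Function.partialInv_left fv.injective x
  let dv : Fin n → Itm m r b := fun i => match Function.partialInv fv i with
    | some x => toItm x
    | none => Itm.P i
  have hsome : ∀ x, dv (fv x) = toItm x := by
    intro x
    simp only [dv, hv]
  have hcase : ∀ i, (∃ x, i = fv x ∧ dv i = toItm x) ∨ dv i = Itm.P i := by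
    intro i
    rcases hi : Function.partialInv fv i with _ | x
    · right
      simp only [dv, hi]
    · left
      refine ⟨x, ?_, by simp only [dv, hi]⟩
      exact ((Function.Injective.isPartialInv fv.injective x i).mp hi).symm
  refine ⟨dv, ?_, ?_, ?_, ?_, ?_⟩
  · intro i j hij
    rcases hcase i with ⟨x, hx, hx'⟩ | hi <;> rcases hcase j with ⟨y, hy, hy'⟩ | hj
    · rw [hx', hy'] at hij
      rw [hx, hy, toItm_inj hij]
    · rw [hx', hj] at hij
      exact absurd hij (toItm_ne x _)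
    · rw [hi, hy'] at hij
      exact absurd hij.symm (toItm_ne y _)
    · rw [hi, hj] at hij
      simp only [Itm.P.injEq] at hij
      exact Fin.ext hij
  · intro j i h
    rcases hcase j with ⟨x, hx, hx'⟩ | hj
    · rw [hx'] at h
      exact absurd h (toItm_ne x _)
    · rw [hj] at h
      simp only [Itm.P.injEq] at h
      rw [← h]
      exact j.isLt
  · intro e i ρ
    exact ⟨fv (Sum.inl (e, i, ρ)), hsome _⟩
  · intro e ρ
    exact ⟨fv (Sum.inr (Sum.inr (e, ρ))), hsome _⟩
  · intro e i ρ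
    exact ⟨fv (Sum.inr (Sum.inl (e, i, ρ))), hsome _⟩

/-- The lower bound for some circuit. -/
theorem tri_main (ε δ : ℝ) (hε : 0 < ε) (hδ : 0 < δ) :
    ∃ c : ℝ, 0 < c ∧ ∀ n : ℕ, 2 ≤ n →
    ∀ (L : Type) [Fintype L] (w : L → ℝ) (C : L → Circuit (EBit n) 3),
      (∀ l, 0 ≤ w l) → ∑ l, w l = 1 →
      (∀ z, ValidList z → 1 / 2 + ε ≤ success w C z (HasTriangle z)) →
      ∃ l, 0 < w l ∧ c * (n : ℝ) ^ (2 - δ) ≤ (C l).size := by
  obtain ⟨u0, hu0⟩ := exists_nat_ge (3 / δ)
  set u := max u0 2 with hu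
  have hu2 : 2 ≤ u := le_max_right _ _
  have huδ : 3 / (u : ℝ) ≤ δ := by
    have h1 : 3 / δ ≤ (u : ℝ) := hu0.trans (by exact_mod_cast le_max_left u0 2)
    have hu' : (0 : ℝ) < u := by exact_mod_cast (by omega : 0 < u)
    rw [div_le_iff₀ hδ] at h1
    rw [div_le_iff₀ hu']
    linarith
  obtain ⟨v, hv⟩ : ∃ v, v + 2 = u * 2 := ⟨u * 2 - 2, by omega⟩
  have hv1 : 1 ≤ v := by omega
  obtain ⟨m, R0, T, hm, hR, hT⟩ := tri_params ε hε u v hu2 hv
  set N0 := 2 ^ (u * (T + 1)) with hN0
  have hN0pos : 0 < N0 := by positivity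
  have hN0pos' : (0 : ℝ) < N0 := by exact_mod_cast hN0pos
  refine ⟨min 1 (1 / (N0 : ℝ) ^ (3 : ℝ)), lt_min one_pos (by positivity), ?_⟩
  intro n hn L _ w C hw hw1 hsucc
  have hn2 : (2 : ℝ) ≤ n := by exact_mod_cast hn
  have hnpos : (0 : ℝ) < n := by linarith
  have hn1 : (1 : ℝ) ≤ n := by linarith
  by_contra hcon
  push Not at hcon
  have hexw : ∃ l, 0 < w l := by
    by_contra h
    push Not at h
    have : ∑ l, w l ≤ 0 := sum_nonpos (fun l _ => h l)
    linarith
  by_cases hnN : n < N0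
  · obtain ⟨l, hl⟩ := hexw
    have h1 := hcon l hl
    have h2 := size_pos (C l)
    have h3 : min 1 (1 / (N0 : ℝ) ^ (3 : ℝ)) * (n : ℝ) ^ (2 - δ) ≤ 1 := by
      have h4 : (n : ℝ) ^ (2 - δ) ≤ (N0 : ℝ) ^ (3 : ℝ) := by
        calc (n : ℝ) ^ (2 - δ) ≤ (n : ℝ) ^ (3 : ℝ) :=
              Real.rpow_le_rpow_of_exponent_le hn1 (by linarith)
          _ ≤ (N0 : ℝ) ^ (3 : ℝ) := by
              have : (n : ℝ) ≤ N0 := by exact_mod_cast hnN.le
              gcongr
      calc _ ≤ (1 / (N0 : ℝ) ^ (3 : ℝ)) * (N0 : ℝ) ^ (3 : ℝ) := by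
            gcongr
            exact min_le_right _ _
        _ = 1 := by field_simp
    linarith
  · push Not at hnN
    -- the unit
    set t := Nat.log 2 n / u with ht
    have hupos : 0 < u := by omega
    have h1 : 2 ^ (u * t) ≤ n := by
      refine le_trans (Nat.pow_le_pow_right (by norm_num) ?_) (Nat.pow_log_le_self 2 (by omega))
      rw [ht]
      exact Nat.mul_div_le _ _
    have h2 : n < 2 ^ (u * (t + 1)) := by
      refine lt_of_lt_of_le (Nat.lt_pow_succ_log_self (b := 2) (by norm_num) n) ?_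
      apply Nat.pow_le_pow_right (by norm_num)
      have := Nat.lt_mul_div_succ (Nat.log 2 n) hupos
      rw [← ht] at this
      exact this
    have htT : T ≤ t := by
      by_contra hlt
      push Not at hlt
      have : 2 ^ (u * (t + 1)) ≤ 2 ^ (u * (T + 1)) :=
        Nat.pow_le_pow_right (by norm_num) (Nat.mul_le_mul_left _ (by omega))
      omega
    obtain ⟨a1, a2, a3, a4, a5, a6, a7, a8⟩ := hT t htT n h1 h2
    set r := rr R0 u v 3 t with hr
    set b := cb m r n with hb
    set κ := (v + 1) * t with hκ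
    set D := Nat.size b with hD
    set τ := Nat.size (m * r) with hτ
    set κv := (κ + 1) / 2 with hκv
    have ht0 : 0 < t := by
      by_contra h0
      have : t = 0 := by omega
      rw [this, mul_zero] at a1
      omega
    have hκpos : 0 < κ := by rw [hκ]; positivity
    obtain ⟨dv, hinj, hPn, hX, hY, hZ⟩ := dv_exists m r b n a5
    have hp : Par n m r b κ D κv τ dv := by
      refine ⟨hinj, hPn, ?_, ?_, ?_, (Nat.lt_size_self _).le, Nat.lt_size_self _⟩
      · unfold wlen; omega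
      · unfold wlen; omega
      · unfold wlen; omega
    apply scheme' (E := Fin m) (A := Fin 2) (Rr := Fin r) (K1 := Fin b) (K2 := Fin κ) w C hw hw1
      ValidList HasTriangle (XL D κv τ dv)
      (fun w2 => sy_proj_one (fun x : EBit n => endS D κv τ (dv x.1) x.2.1 x.2.2.val) w2)
      (fun w1 => sy_proj_two (fun x : EBit n => endS D κv τ (dv x.1) x.2.1 x.2.2.val) w1)
      (v * t) 1 (kk u v 3 t) a1 le_rfl a2 (by simp) (by simpa using a4) (by simpa using hm)
      (by simpa using a3) (by simpa using hκpos) ε (5 * ε / 4) (by linarith)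
    · intro w1 w2 ho1 hs1 _
      exact valid hp ho1 hs1
    · exact fun w1 w2 o1 o2 h => (triangle_iff hp hX hY hZ o1 o2).mpr h
    · exact fun w1 w2 o1 o2 h => (triangle_iff hp hX hY hZ o1 o2).mp h
    · intro z hz
      exact hsucc z hz
    · intro l hl
      simp only [Fintype.card_fin]
      apply a8
      have h3 := (hcon l hl).le
      have h4 : ((C l).size : ℝ) ≤ 2 ^ ((t + 1) * (v - 1)) := by
        calc ((C l).size : ℝ) ≤ 1 * (n : ℝ) ^ (2 - δ) := by
              refine h3.trans ?_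
              gcongr
              exact min_le_left _ _
          _ = (n : ℝ) ^ (2 - δ) := one_mul _
          _ ≤ (n : ℝ) ^ (((v - 1 : ℕ) : ℝ) / u) := by
              apply Real.rpow_le_rpow_of_exponent_le hn1
              have hu' : (0 : ℝ) < u := by exact_mod_cast hupos
              rw [le_div_iff₀ hu', Nat.cast_sub hv1]
              have hv' : (v : ℝ) + 2 = u * 2 := by exact_mod_cast hv
              have h5 : 3 ≤ δ * u := by
                rw [div_le_iff₀ hu'] at huδ
                exact huδ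
              push_cast
              nlinarith
          _ ≤ ((2 : ℝ) ^ (u * (t + 1))) ^ (((v - 1 : ℕ) : ℝ) / u) := by
              have : (n : ℝ) ≤ 2 ^ (u * (t + 1)) := by exact_mod_cast h2.le
              gcongr
          _ = 2 ^ ((t + 1) * (v - 1)) := by
              have hu' : (0 : ℝ) < u := by exact_mod_cast hupos
              rw [← Real.rpow_natCast 2 (u * (t + 1)), ← Real.rpow_mul (by norm_num),
                ← Real.rpow_natCast 2 ((t + 1) * (v - 1))]
              congr 1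
              push_cast
              field_simp
      exact_mod_cast h4

theorem tri_exp (ε δ : ℝ) (hε : 0 < ε) (hδ : 0 < δ) : ∃ c : ℝ, 0 < c ∧ ∀ n : ℕ, 2 ≤ n →
    ∀ (L : Type) [Fintype L] (w : L → ℝ) (C : L → Circuit (EBit n) 3),
      (∀ l, 0 ≤ w l) → ∑ l, w l = 1 →
      (∀ z, ValidList z → 1 / 2 + ε ≤ success w C z (HasTriangle z)) →
      c * (n : ℝ) ^ (2 - δ) ≤ expSize w C := by
  have hε' : 0 < min ε (1 / 2) := lt_min hε (by norm_num)
  obtain ⟨c, hc, h⟩ := tri_main (min ε (1 / 2) / 2) δ (by positivity) hδ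
  refine ⟨min ε (1 / 2) / 2 * c, by positivity, ?_⟩
  intro n hn L _ w C hw hw1 hs
  have hnpos : (0 : ℝ) < n := by exact_mod_cast (by omega : 0 < n)
  have := expected ValidList HasTriangle (min ε (1 / 2)) (c * (n : ℝ) ^ (2 - δ)) hε'
    (min_le_right _ _)
    (by positivity) (fun L _ w C hw hw1 hs => h n hn L w C hw hw1 hs) L w C hw hw1
    (fun z hz => success_mono_eps _ (hs z hz))
  linarith

theorem tri_q1 (a b : ℕ) (hb : 0 < b) (hab : a < 2 * b) (K : ℕ) :
    ∃ N : ℕ, ∀ n ≥ N, ¬ ∃ (L : Type) (_ : Fintype L) (w : L → ℝ) (C : L → Circuit (EBit n) 3),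
      (∀ l, 0 ≤ w l) ∧ ∑ l, w l = 1 ∧
      (∀ z, ValidList z → 2 / 3 ≤ success w C z (HasTriangle z)) ∧
      expSize w C ≤ K * ((n : ℝ) ^ ((a : ℝ) / b) + 1) := by
  have hb' : (0 : ℝ) < b := by exact_mod_cast hb
  have hlt : (a : ℝ) / b < 2 := by
    rw [div_lt_iff₀ hb']; exact_mod_cast hab
  set δ : ℝ := (2 - (a : ℝ) / b) / 2 with hδ
  have hδpos : 0 < δ := by rw [hδ]; linarith
  obtain ⟨c, hc, h⟩ := tri_exp (1 / 6) δ (by norm_num) hδpos
  obtain ⟨N, hN⟩ := pow_lt_ev c K ((a : ℝ) / b) (2 - δ) hc (by rw [hδ]; linarith) (by positivity)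
    (by positivity)
  refine ⟨max N 2, fun n hn => ?_⟩
  rintro ⟨L, _, w, C, hw, hw1, hs, hsize⟩
  have h1 := h n ((le_max_right _ _).trans hn) L w C hw hw1 (by
    intro z hz
    have := hs z hz
    linarith)
  have h2 := hN n ((le_max_left _ _).trans hn)
  linarith

end Pool.Agent.K7.H45.TD3
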